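import Pool.Agent.K9h12.SH.Loc
import Pool.Agent.Y190.AN.Pic

/-!
The field of meromorphic functions near infinity: places of points, primitive vectors.
-/

set_option autoImplicit false

open Filter Topology Set Metric FF

namespace Pool.Agent.K9h12.AX

open Pool.Agent.Y190.AN Pool.Agent.W603.LV Pool.Agent.W603.BP Pool.Agent.W601.PH
  Pool.Agent.K9h12.SH

variable {D : Dm}

theorem ge_ev {f g : ℂ → ℂ} {hf : MeromorphicOn f D.U} {z : ℂ} (hz : z ∈ D.U)
    (hg : AnalyticAt ℂ g z) (h : f =ᶠ[𝓝[≠] z] g) : Ge (PL hz) 0 (cl f hf) := by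
  by_cases h0 : cl f hf = 0
  · exact Or.inl h0
  · right
    rw [PL_cl hf hz, meromorphicOrderAt_congr h]
    have h1 := cl_ne_zero h0 z hz
    rw [meromorphicOrderAt_congr h] at h1
    have h2 := hg.meromorphicOrderAt_nonneg
    obtain ⟨a, ha⟩ := WithTop.ne_top_iff_exists.1 h1
    rw [← ha] at h2 ⊢
    exact_mod_cast h2

theorem ge_ev1 {f g : ℂ → ℂ} {hf : MeromorphicOn f D.U} {z : ℂ} (hz : z ∈ D.U)
    (hg : AnalyticAt ℂ g z) (hg0 : g z = 0) (h : f =ᶠ[𝓝[≠] z] g) :
    Ge (PL hz) 1 (cl f hf) := by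
  by_cases h0 : cl f hf = 0
  · exact Or.inl h0
  · right
    rw [PL_cl hf hz, meromorphicOrderAt_congr h]
    have h1 := cl_ne_zero h0 z hz
    rw [meromorphicOrderAt_congr h] at h1
    have h2 := hg.meromorphicOrderAt_nonneg
    have h3 : meromorphicOrderAt g z ≠ 0 := by
      rw [hg.meromorphicOrderAt_eq]
      intro h4
      have h5 : analyticOrderAt g z = 0 := by
        cases ho : analyticOrderAt g z with
        | top =>
          rw [ho] at h4
          exact absurd h4 (by simp)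
        | coe n =>
          rw [ho] at h4
          have h6 : ((n : ℤ) : WithTop ℤ) = 0 := h4
          have h7 : (n : ℤ) = 0 := by exact_mod_cast h6
          have h8 : n = 0 := by exact_mod_cast h7
          rw [h8]
          rfl
      exact (hg.analyticOrderAt_eq_zero.1 h5) hg0
    obtain ⟨a, ha⟩ := WithTop.ne_top_iff_exists.1 h1
    rw [← ha] at h2 h3 ⊢
    have h4 : (0 : ℤ) ≤ a := by exact_mod_cast h2
    have h5 : a ≠ 0 := by exact_mod_cast h3
    change 1 ≤ a
    omega

/-- regular functions agree with analytic functions -/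
theorem exists_an {f : ℂ → ℂ} {hf : MeromorphicOn f D.U} {z : ℂ} (hz : z ∈ D.U)
    (h : Ge (PL hz) 0 (cl f hf)) : ∃ g, AnalyticAt ℂ g z ∧ f =ᶠ[𝓝[≠] z] g := by
  rcases h with h | h
  · exact ⟨fun _ => 0, analyticAt_const, cl_eq_zero.1 h z hz⟩
  by_cases h0 : cl f hf = 0
  · exact ⟨fun _ => 0, analyticAt_const, cl_eq_zero.1 h0 z hz⟩
  rw [PL_cl hf hz] at h
  have h1 := cl_ne_zero h0 z hz
  obtain ⟨a, ha⟩ := WithTop.ne_top_iff_exists.1 h1
  rw [← ha] at h
  have h2 : (0 : ℤ) ≤ a := h
  obtain ⟨n, rfl⟩ := Int.eq_ofNat_of_zero_le h2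
  obtain ⟨g, hg, -, hgf⟩ := (meromorphicOrderAt_eq_int_iff (hf z hz)).1 ha.symm
  refine ⟨fun w => (w - z) ^ n * g w, ((analyticAt_id.fun_sub analyticAt_const).fun_pow n).fun_mul hg,
    ?_⟩
  filter_upwards [hgf] with w hw
  rw [hw]
  simp

/-- the places of the points are nice -/
theorem nice_PL {z : ℂ} (hz : z ∈ D.U) : Nice (PL hz) (MDer D) := by
  refine ⟨fun f hf => ?_, ?_, fun f hf => ?_⟩
  · obtain ⟨f, hfm, rfl⟩ := cl_surj f
    obtain ⟨g, hg, hfg⟩ := exists_an hz hf
    rw [MDer_apply, MD_cl]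
    exact ge_ev hz hg.deriv (deriv_ev hfg)
  · have hid : MeromorphicOn (fun w : ℂ => w - z) D.U := fun w _ =>
      ((analyticAt_id.fun_sub analyticAt_const).meromorphicAt)
    refine ⟨cl _ hid, ?_, ?_⟩
    · have h1 : analyticOrderAt (fun w : ℂ => w - z) z = ((1 : ℕ) : ℕ∞) := by
        have := analyticOrderAt_id_sub_const_self (𝕜 := ℂ) (c := z)
        simpa using this
      have := ord_cl (hg := hid) hz (analyticAt_id.fun_sub analyticAt_const) h1
      exact_mod_cast this
    · rw [MDer_apply, MD_cl, ← map_one (algebraMap ℂ (MK D)), ← cl_const, cl_eq]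
      intro w _
      refine Eventually.of_forall fun v => ?_
      simp
  · obtain ⟨f, hfm, rfl⟩ := cl_surj f
    obtain ⟨g, hg, hfg⟩ := exists_an hz hf
    refine ⟨g z, ?_⟩
    have h1 : cl f hfm - algebraMap ℂ (MK D) (g z) =
        cl (f + fun _ => -g z) (hfm.add (MeromorphicOn.const _)) := by
      rw [← cl_add hfm (MeromorphicOn.const _), cl_const, map_neg, sub_eq_add_neg]
    rw [h1]
    refine ge_ev1 hz (g := fun w => g w + -g z) (hg.fun_add analyticAt_const) (by simp) ?_
    filter_upwards [hfg] with w hw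
    rw [Pi.add_apply, hw]

theorem cl_fun_mul {f g : ℂ → ℂ} (hf : MeromorphicOn f D.U) (hg : MeromorphicOn g D.U)
    (h : MeromorphicOn (fun z => f z * g z) D.U) :
    cl (fun z => f z * g z) h = cl f hf * cl g hg := by
  rw [cl_mul]; rfl

theorem cl_fun_add {f g : ℂ → ℂ} (hf : MeromorphicOn f D.U) (hg : MeromorphicOn g D.U)
    (h : MeromorphicOn (fun z => f z + g z) D.U) :
    cl (fun z => f z + g z) h = cl f hf + cl g hg := by
  rw [cl_add]; rfl

theorem cl_fun_const (c : ℂ) (h : MeromorphicOn (fun _ => c) D.U) :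
    cl (fun _ => c) h = algebraMap ℂ (MK D) c := cl_const c

theorem cl_fun_sub {f g : ℂ → ℂ} (hf : MeromorphicOn f D.U) (hg : MeromorphicOn g D.U)
    (h : MeromorphicOn (fun z => f z - g z) D.U) :
    cl (fun z => f z - g z) h = cl f hf - cl g hg := by
  have h1 : cl f hf = cl (fun z => (f z - g z) + g z) (by simpa using hf) := by
    congr 1
    funext z
    simp
  rw [h1, cl_fun_add h hg, add_sub_cancel_right]

theorem cl_fun_pow {f : ℂ → ℂ} (hf : MeromorphicOn f D.U) (n : ℕ)
    (h : MeromorphicOn (fun z => f z ^ n) D.U) : cl (fun z => f z ^ n) h = cl f hf ^ n := by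
  induction n with
  | zero =>
    rw [pow_zero, ← map_one (algebraMap ℂ (MK D)), ← cl_const, cl_eq]
    intro z _
    exact Eventually.of_forall fun w => by simp
  | succ n ih =>
    have h' : MeromorphicOn (fun z => f z ^ n) D.U := fun z hz => (hf z hz).fun_pow n
    rw [pow_succ, ← ih h', ← cl_fun_mul h' hf (by simpa only [pow_succ] using h), cl_eq]
    intro z _
    exact Eventually.of_forall fun w => by simp [pow_succ]

theorem cl_fun_prod {ι : Type} (s : Finset ι) {f : ι → ℂ → ℂ}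
    (hf : ∀ i, MeromorphicOn (f i) D.U) (h : MeromorphicOn (fun z => ∏ i ∈ s, f i z) D.U) :
    cl (fun z => ∏ i ∈ s, f i z) h = ∏ i ∈ s, cl (f i) (hf i) := by
  classical
  induction s using Finset.induction_on with
  | empty =>
    rw [Finset.prod_empty, ← map_one (algebraMap ℂ (MK D)), ← cl_const, cl_eq]
    intro z _
    exact Eventually.of_forall fun w => by simp
  | insert a s ha ih =>
    have h' : MeromorphicOn (fun z => ∏ i ∈ s, f i z) D.U := fun z hz =>
      MeromorphicAt.fun_prod fun i _ => hf i z hz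
    rw [Finset.prod_insert ha, ← ih h', ← cl_fun_mul (hf a) h' (by
      simpa only [Finset.prod_insert ha] using h), cl_eq]
    intro z _
    exact Eventually.of_forall fun w => by simp [Finset.prod_insert ha]

theorem cl_deriv {f : ℂ → ℂ} (hf : MeromorphicOn f D.U) (h : MeromorphicOn (deriv f) D.U) :
    cl (deriv f) h = MDer D (cl f hf) := by
  rw [MDer_apply, MD_cl]

/-- a nonzero class does not vanish everywhere on a smaller set -/
theorem exists_ne {f : ℂ → ℂ} {hf : MeromorphicOn f D.U} (h : cl f hf ≠ 0) {V : Set ℂ}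
    (hV : IsOpen V) (hVD : V ⊆ D.U) (hne : V.Nonempty) : ∃ z ∈ V, f z ≠ 0 := by
  by_contra hcon
  push Not at hcon
  obtain ⟨z, hz⟩ := hne
  apply h
  rw [cl_eq_zero]
  refine zero_all hf (hVD hz) ?_
  filter_upwards [nhdsWithin_le_nhds (hV.mem_nhds hz)] with w hw using hcon w hw

/-- nonzero classes do not vanish near points -/
theorem ev_ne {f : ℂ → ℂ} {hf : MeromorphicOn f D.U} (h : cl f hf ≠ 0) {z : ℂ} (hz : z ∈ D.U) :
    ∀ᶠ w in 𝓝[≠] z, f w ≠ 0 :=
  (meromorphicOrderAt_ne_top_iff_eventually_ne_zero (hf z hz)).1 (cl_ne_zero h z hz)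

end Pool.Agent.K9h12.AX
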