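import Pool.Agent.TH152.HY.Ext

/-!
Two families of functions near infinity with a strong auxiliary function.
-/

set_option autoImplicit false

namespace Pool.Agent.K9h12.AX

open Filter Metric Real Set Topology Pool.Agent.H159R3.NV Pool.Agent.W602.NC Pool.Agent.W602.TL
  Pool.Agent.W603.BP Pool.Agent.W601.PH Pool.Agent.TH152.HY

variable {p q : ℕ}

theorem sup_nonneg (U : Fin (p + 1) → ℂ → ℂ) (z : ℂ) : 0 ≤ sup U z :=
  (norm_nonneg _).trans (le_sup U z 0)

/-- the index of a pair -/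
noncomputable def ix (p q : ℕ) : Fin ((p + 1) * q + p + 1) ≃ Fin (p + 1) × Fin (q + 1) :=
  (finCongr (by ring)).trans finProdFinEquiv.symm

/-- The core statement for two families: they need not be comparable. -/
theorem two_ext {r0 : ℝ} (hr0 : 0 < r0) (c : Fin (p + 1) → ℕ) (c' : Fin (q + 1) → ℕ)
    (hc : 1 ≤ ∑ i, c i) (hc' : 1 ≤ ∑ j, c' j) {κ κ' Nn : ℕ} (hκ : 0 < κ) (hκ' : 0 < κ')
    {C1 : ℝ} (hC1 : 1 ≤ C1) {U : Fin (p + 1) → ℂ → ℂ} {V : Fin (q + 1) → ℂ → ℂ}
    (hU : ∀ i, AnalyticOnNhd ℂ (U i) (Ext r0)) (hV : ∀ i, AnalyticOnNhd ℂ (V i) (Ext r0))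
    (hUne : ∀ i, ∃ z ∈ Ext r0, U i z ≠ 0) (hVne : ∀ i, ∃ z ∈ Ext r0, V i z ≠ 0)
    {P : ℂ → ℂ} (hPan : AnalyticOnNhd ℂ P (Ext r0)) (hPne : ∃ z ∈ Ext r0, P z ≠ 0)
    (hord : ∀ z ∈ Ext r0, ∀ (a : Fin (p + 1) → ℕ) (b : Fin (q + 1) → ℕ),
      (∀ i, analyticOrderAt (U i) z = a i) → (∀ i, analyticOrderAt (V i) z = b i) →
      ((∑ i, c i * a i + ∑ j, c' j * b j : ℕ) : ℕ∞) ≤ analyticOrderAt P z)
    (hpt : ∀ z ε B, 0 < ε → ε ≤ 1 → 1 ≤ B → closedBall z ε ⊆ Ext r0 → Calm U z ε B →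
      Calm V z ε B → ‖P z‖ * sup U z ^ κ * sup V z ^ κ' ≤
        C1 * (B / ε) ^ Nn * ((∏ i, ‖U i z‖ ^ c i) * ∏ j, ‖V j z‖ ^ c' j)) :
    ∀ i j, ∃ R : ℂ → ℂ, MeromorphicAt (fun w => R w⁻¹) 0 ∧ ∃ R0 : ℝ, ∀ z, R0 < ‖z‖ →
      U i z * V j z = R z * (U 0 z * V 0 z) := by
  classical
  obtain ⟨S, hS⟩ : ∃ S, ∑ i, c i = S + 1 := ⟨∑ i, c i - 1, by omega⟩
  obtain ⟨S', hS'⟩ : ∃ S', ∑ i, c' i = S' + 1 := ⟨∑ i, c' i - 1, by omega⟩
  obtain ⟨k, rfl⟩ : ∃ k, κ = k + 1 := ⟨κ - 1, by omega⟩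
  obtain ⟨k', rfl⟩ : ∃ k, κ' = k + 1 := ⟨κ' - 1, by omega⟩
  let W : Fin ((p + 1) * q + p + 1) → ℂ → ℂ := fun i z => U (ix p q i).1 z * V (ix p q i).2 z
  let cc : Fin ((p + 1) * q + p + 1) → ℕ := fun i => c (ix p q i).1 * c' (ix p q i).2
  let F1 : ℂ → ℂ := fun z => ∏ i, U i z ^ (c i * S')
  let F2 : ℂ → ℂ := fun z => ∏ j, V j z ^ (c' j * S)
  let Q : ℂ → ℂ := fun z => P z * (F1 z * F2 z) * (U 0 z ^ k * V 0 z ^ k')
  have hsum : ∀ f : Fin (p + 1) → Fin (q + 1) → ℕ,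
      ∑ i, f (ix p q i).1 (ix p q i).2 = ∑ i, ∑ j, f i j := by
    intro f
    rw [← Fintype.sum_prod_type' f]
    exact Equiv.sum_comp (ix p q) fun x => f x.1 x.2
  have hprod : ∀ f : Fin (p + 1) → Fin (q + 1) → ℝ,
      ∏ i, f (ix p q i).1 (ix p q i).2 = ∏ i, ∏ j, f i j := by
    intro f
    rw [← Fintype.prod_prod_type' f]
    exact Equiv.prod_comp (ix p q) fun x => f x.1 x.2
  have hF1 : AnalyticOnNhd ℂ F1 (Ext r0) := fun z hz =>
    Finset.analyticAt_fun_prod _ fun i _ => (hU i z hz).fun_pow _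
  have hF2 : AnalyticOnNhd ℂ F2 (Ext r0) := fun z hz =>
    Finset.analyticAt_fun_prod _ fun i _ => (hV i z hz).fun_pow _
  have hWan : ∀ i, AnalyticOnNhd ℂ (W i) (Ext r0) := fun i z hz =>
    (hU _ z hz).fun_mul (hV _ z hz)
  have hF3 : AnalyticOnNhd ℂ (fun z => U 0 z ^ k * V 0 z ^ k') (Ext r0) := fun z hz =>
    ((hU 0 z hz).fun_pow _).fun_mul ((hV 0 z hz).fun_pow _)
  have hQan : AnalyticOnNhd ℂ Q (Ext r0) := fun z hz =>
    ((hPan z hz).fun_mul ((hF1 z hz).fun_mul (hF2 z hz))).fun_mul (hF3 z hz)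
  -- a point where nothing vanishes
  let gg : Option (Fin (p + 1) ⊕ Fin (q + 1)) → ℂ → ℂ := fun o =>
    o.elim P fun s => s.elim (fun i => U i) fun j => V j
  have hgg1 : ∀ o ∈ (Finset.univ : Finset (Option (Fin (p + 1) ⊕ Fin (q + 1)))),
      AnalyticOnNhd ℂ (gg o) (Ext r0) := by
    rintro (_ | i | i) _
    · exact hPan
    · exact hU i
    · exact hV i
  have hgg2 : ∀ o ∈ (Finset.univ : Finset (Option (Fin (p + 1) ⊕ Fin (q + 1)))),
      ∃ z ∈ Ext r0, gg o z ≠ 0 := by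
    rintro (_ | i | i) _
    · exact hPne
    · exact hUne i
    · exact hVne i
  obtain ⟨-, z1, hz1, hz1'⟩ := prod_ne hr0 Finset.univ gg hgg1 hgg2
  have hz2 := fun o => Finset.prod_ne_zero_iff.1 hz1' o (Finset.mem_univ _)
  have hP1 : P z1 ≠ 0 := hz2 none
  have hU1 : ∀ i, U i z1 ≠ 0 := fun i => hz2 (some (Sum.inl i))
  have hV1 : ∀ i, V i z1 ≠ 0 := fun i => hz2 (some (Sum.inr i))
  have hix0 : ix p q 0 = (0, 0) := by
    unfold ix
    simp only [Equiv.trans_apply]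
    rw [Equiv.symm_apply_eq]
    apply Fin.ext
    simp [finProdFinEquiv]
  have hsupW : ∀ z, sup W z ≤ sup U z * sup V z := by
    intro z
    obtain ⟨i, hi⟩ := sup_attained W z
    rw [hi]
    simp only [W, norm_mul]
    exact mul_le_mul (le_sup U z _) (le_sup V z _) (norm_nonneg _) (sup_nonneg U z)
  have hmain := abstract_ext hr0 cc (κ := 1) (Nn := Nn) one_pos hC1 (U := W) hWan
    (fun i => ⟨z1, hz1, mul_ne_zero (hU1 _) (hV1 _)⟩) (P := Q) hQan
    ⟨z1, hz1, mul_ne_zero (mul_ne_zero hP1 (mul_ne_zero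
      (Finset.prod_ne_zero_iff.2 fun i _ => pow_ne_zero _ (hU1 i))
      (Finset.prod_ne_zero_iff.2 fun i _ => pow_ne_zero _ (hV1 i))))
      (mul_ne_zero (pow_ne_zero _ (hU1 0)) (pow_ne_zero _ (hV1 0)))⟩ ?_ ?_
  · intro i j
    obtain ⟨R, h1, R0, h2⟩ := hmain ((ix p q).symm (i, j))
    refine ⟨R, h1, R0, fun z hz => ?_⟩
    have h3 := h2 z hz
    simp only [W, Equiv.apply_symm_apply, hix0] at h3
    exact h3
  · -- orders
    intro z hz a ha
    have hfin : ∀ i j, ∃ n : ℕ, analyticOrderAt (U i) z + analyticOrderAt (V j) z = n := by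
      intro i j
      refine ⟨a ((ix p q).symm (i, j)), ?_⟩
      rw [← ha]
      have h1 := analyticOrderAt_mul (hU i z hz) (hV j z hz)
      rw [← h1]
      simp only [W, Equiv.apply_symm_apply]
      rfl
    have hUf : ∀ i, ∃ n : ℕ, analyticOrderAt (U i) z = n := by
      intro i
      obtain ⟨n, hn⟩ := hfin i 0
      have h1 : analyticOrderAt (U i) z ≠ ⊤ := by
        intro h0
        rw [h0, top_add] at hn
        exact absurd hn.symm (ENat.natCast_ne_top n)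
      obtain ⟨m, hm⟩ := ENat.ne_top_iff_exists.1 h1
      exact ⟨m, hm.symm⟩
    have hVf : ∀ i, ∃ n : ℕ, analyticOrderAt (V i) z = n := by
      intro i
      obtain ⟨n, hn⟩ := hfin 0 i
      have h1 : analyticOrderAt (V i) z ≠ ⊤ := by
        intro h0
        rw [h0, add_top] at hn
        exact absurd hn.symm (ENat.natCast_ne_top n)
      obtain ⟨m, hm⟩ := ENat.ne_top_iff_exists.1 h1
      exact ⟨m, hm.symm⟩
    choose u hu using hUf
    choose v hv using hVf
    have ha' : ∀ i, a i = u (ix p q i).1 + v (ix p q i).2 := by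
      intro i
      have h1 := ha i
      have h2 : analyticOrderAt (W i) z = _ := analyticOrderAt_mul (hU (ix p q i).1 z hz)
        (hV (ix p q i).2 z hz)
      rw [h2, hu, hv] at h1
      exact_mod_cast h1.symm
    have e1 : ∑ i, cc i * a i = (S' + 1) * ∑ i, c i * u i + (S + 1) * ∑ j, c' j * v j := by
      have h1 : ∑ i, cc i * a i = ∑ i, (fun i j => c i * c' j * (u i + v j)) (ix p q i).1
          (ix p q i).2 := Finset.sum_congr rfl fun i _ => by rw [ha' i]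
      rw [h1, hsum (fun i j => c i * c' j * (u i + v j)), ← hS, ← hS']
      simp only [mul_add, Finset.sum_add_distrib, Finset.sum_mul, Finset.mul_sum]
      congr 1
      · refine Finset.sum_congr rfl fun i _ => Finset.sum_congr rfl fun j _ => by ring
      · rw [Finset.sum_comm]
        refine Finset.sum_congr rfl fun i _ => Finset.sum_congr rfl fun j _ => by ring
    have hord1 := hord z hz u v hu hv
    have o1 : analyticOrderAt F1 z = ((∑ i, c i * S' * u i : ℕ) : ℕ∞) := by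
      rw [show F1 = fun z => ∏ i, U i z ^ (c i * S') from rfl,
        Pool.Agent.W601.PH.analyticOrder_prod Finset.univ (fun i z => U i z ^ (c i * S'))
        (fun i _ => (hU i z hz).fun_pow _)]
      rw [Nat.cast_sum]
      refine Finset.sum_congr rfl fun i _ => ?_
      have h1 : analyticOrderAt (fun z => U i z ^ (c i * S')) z =
        (c i * S') • analyticOrderAt (U i) z := analyticOrderAt_pow (hU i z hz) _
      rw [h1, hu i, nsmul_eq_mul]
      push_cast
      ring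
    have o2 : analyticOrderAt F2 z = ((∑ i, c' i * S * v i : ℕ) : ℕ∞) := by
      rw [show F2 = fun z => ∏ i, V i z ^ (c' i * S) from rfl,
        Pool.Agent.W601.PH.analyticOrder_prod Finset.univ (fun i z => V i z ^ (c' i * S))
        (fun i _ => (hV i z hz).fun_pow _)]
      rw [Nat.cast_sum]
      refine Finset.sum_congr rfl fun i _ => ?_
      have h1 : analyticOrderAt (fun z => V i z ^ (c' i * S)) z =
        (c' i * S) • analyticOrderAt (V i) z := analyticOrderAt_pow (hV i z hz) _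
      rw [h1, hv i, nsmul_eq_mul]
      push_cast
      ring
    have o3 : analyticOrderAt Q z = analyticOrderAt P z + (analyticOrderAt F1 z +
        analyticOrderAt F2 z) + analyticOrderAt (fun z => U 0 z ^ k * V 0 z ^ k') z := by
      have h1 : analyticOrderAt (fun z => F1 z * F2 z) z = _ :=
        analyticOrderAt_mul (hF1 z hz) (hF2 z hz)
      have h2 : analyticOrderAt (fun z => P z * (F1 z * F2 z)) z = _ :=
        analyticOrderAt_mul (hPan z hz) ((hF1 z hz).fun_mul (hF2 z hz))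
      have h3 : analyticOrderAt Q z = _ :=
        analyticOrderAt_mul ((hPan z hz).fun_mul ((hF1 z hz).fun_mul (hF2 z hz))) (hF3 z hz)
      rw [h3, h2, h1]
    rw [o3, o1, o2, e1]
    refine le_trans ?_ (le_self_add)
    refine le_trans ?_ (add_le_add_left hord1 _)
    have e2 : (S' + 1) * ∑ i, c i * u i + (S + 1) * ∑ j, c' j * v j =
        (∑ i, c i * u i + ∑ j, c' j * v j) + (∑ i, c i * S' * u i + ∑ i, c' i * S * v i) := by
      have h1 : ∑ i, c i * S' * u i = S' * ∑ i, c i * u i := by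
        rw [Finset.mul_sum]
        exact Finset.sum_congr rfl fun i _ => by ring
      have h2 : ∑ i, c' i * S * v i = S * ∑ i, c' i * v i := by
        rw [Finset.mul_sum]
        exact Finset.sum_congr rfl fun i _ => by ring
      rw [h1, h2]
      ring
    rw [e2]
    push_cast
    exact le_rfl
  · -- the pointwise bound
    intro z ε B hε hε1 hB hball hcalm
    have hcU : Calm U z ε B := by
      refine ⟨fun i w hw h0 => hcalm.1 ((ix p q).symm (i, 0)) w hw ?_, fun i j w hw => ?_⟩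
      · simp only [W, Equiv.apply_symm_apply, h0, zero_mul]
      · have h1 := hcalm.2 ((ix p q).symm (i, 0)) ((ix p q).symm (j, 0)) w hw
        have h2 := hcalm.1 ((ix p q).symm (i, 0)) w hw
        have h3 := hcalm.1 ((ix p q).symm (i, 0)) z (mem_closedBall_self hε.le)
        simp only [W, Equiv.apply_symm_apply] at h1 h2 h3
        rwa [mul_div_mul_right _ _ (right_ne_zero_of_mul h2),
          mul_div_mul_right _ _ (right_ne_zero_of_mul h3)] at h1
    have hcV : Calm V z ε B := by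
      refine ⟨fun i w hw h0 => hcalm.1 ((ix p q).symm (0, i)) w hw ?_, fun i j w hw => ?_⟩
      · simp only [W, Equiv.apply_symm_apply, h0, mul_zero]
      · have h1 := hcalm.2 ((ix p q).symm (0, i)) ((ix p q).symm (0, j)) w hw
        have h2 := hcalm.1 ((ix p q).symm (0, i)) w hw
        have h3 := hcalm.1 ((ix p q).symm (0, i)) z (mem_closedBall_self hε.le)
        simp only [W, Equiv.apply_symm_apply] at h1 h2 h3
        rwa [mul_div_mul_left _ _ (left_ne_zero_of_mul h2),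
          mul_div_mul_left _ _ (left_ne_zero_of_mul h3)] at h1
    have h0 := hpt z ε B hε hε1 hB hball hcU hcV
    have e1 : ∏ i, ‖W i z‖ ^ cc i = ((∏ i, ‖U i z‖ ^ c i) * ∏ j, ‖V j z‖ ^ c' j) *
        ((∏ i, ‖U i z‖ ^ (c i * S')) * ∏ j, ‖V j z‖ ^ (c' j * S)) := by
      have h1 : ∏ i, ‖W i z‖ ^ cc i = ∏ i, (fun i j => (‖U i z‖ * ‖V j z‖) ^ (c i * c' j))
          (ix p q i).1 (ix p q i).2 := Finset.prod_congr rfl fun i _ => by
        simp only [W, norm_mul, cc]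
      rw [h1, hprod (fun i j => (‖U i z‖ * ‖V j z‖) ^ (c i * c' j))]
      have h2 : ∀ i, ∏ j, (‖U i z‖ * ‖V j z‖) ^ (c i * c' j) =
          ‖U i z‖ ^ (c i * (S' + 1)) * (∏ j, ‖V j z‖ ^ c' j) ^ c i := by
        intro i
        simp only [mul_pow, Finset.prod_mul_distrib, Finset.prod_pow_eq_pow_sum]
        rw [← Finset.mul_sum, hS', ← Finset.prod_pow]
        congr 1
        exact Finset.prod_congr rfl fun j _ => by rw [← pow_mul, mul_comm (c i)]
      rw [Finset.prod_congr rfl fun i _ => h2 i, Finset.prod_mul_distrib,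
        Finset.prod_pow_eq_pow_sum, hS]
      have h3 : ∏ i, ‖U i z‖ ^ (c i * (S' + 1)) = (∏ i, ‖U i z‖ ^ c i) *
          ∏ i, ‖U i z‖ ^ (c i * S') := by
        rw [← Finset.prod_mul_distrib]
        exact Finset.prod_congr rfl fun i _ => by rw [← pow_add]; congr 1; ring
      have h4 : (∏ j, ‖V j z‖ ^ c' j) ^ (S + 1) = (∏ i, ‖V i z‖ ^ c' i) *
          ∏ i, ‖V i z‖ ^ (c' i * S) := by
        rw [pow_succ, mul_comm, ← Finset.prod_pow]
        congr 1
        exact Finset.prod_congr rfl fun i _ => by rw [← pow_mul]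
      rw [h3, h4]
      ring
    rw [e1, pow_one]
    have e2 : ‖Q z‖ = ‖P z‖ * ((∏ i, ‖U i z‖ ^ (c i * S')) * ∏ j, ‖V j z‖ ^ (c' j * S)) *
        (‖U 0 z‖ ^ k * ‖V 0 z‖ ^ k') := by
      simp only [Q, F1, F2, norm_mul, norm_prod, norm_pow]
    have hA : 0 ≤ (∏ i, ‖U i z‖ ^ (c i * S')) * ∏ j, ‖V j z‖ ^ (c' j * S) := by positivity
    have h5 : ‖U 0 z‖ ^ k * ‖V 0 z‖ ^ k' * sup W z ≤ sup U z ^ (k + 1) * sup V z ^ (k' + 1) := by
      have h6 := pow_le_pow_left₀ (norm_nonneg _) (le_sup U z 0) k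
      have h7 := pow_le_pow_left₀ (norm_nonneg _) (le_sup V z 0) k'
      calc ‖U 0 z‖ ^ k * ‖V 0 z‖ ^ k' * sup W z
          ≤ sup U z ^ k * sup V z ^ k' * (sup U z * sup V z) := by
            refine mul_le_mul (mul_le_mul h6 h7 (by positivity)
              (pow_nonneg (sup_nonneg U z) _)) (hsupW z) (sup_nonneg W z) ?_
            exact mul_nonneg (pow_nonneg (sup_nonneg U z) _) (pow_nonneg (sup_nonneg V z) _)
        _ = _ := by ring
    calc ‖Q z‖ * sup W z
        = (‖P z‖ * ((∏ i, ‖U i z‖ ^ (c i * S')) * ∏ j, ‖V j z‖ ^ (c' j * S))) *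
          (‖U 0 z‖ ^ k * ‖V 0 z‖ ^ k' * sup W z) := by rw [e2]; ring
      _ ≤ (‖P z‖ * ((∏ i, ‖U i z‖ ^ (c i * S')) * ∏ j, ‖V j z‖ ^ (c' j * S))) *
          (sup U z ^ (k + 1) * sup V z ^ (k' + 1)) :=
          mul_le_mul_of_nonneg_left h5 (mul_nonneg (norm_nonneg _) hA)
      _ = (‖P z‖ * sup U z ^ (k + 1) * sup V z ^ (k' + 1)) *
          ((∏ i, ‖U i z‖ ^ (c i * S')) * ∏ j, ‖V j z‖ ^ (c' j * S)) := by ring
      _ ≤ (C1 * (B / ε) ^ Nn * ((∏ i, ‖U i z‖ ^ c i) * ∏ j, ‖V j z‖ ^ c' j)) *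
          ((∏ i, ‖U i z‖ ^ (c i * S')) * ∏ j, ‖V j z‖ ^ (c' j * S)) :=
          mul_le_mul_of_nonneg_right h0 hA
      _ = _ := by ring

end Pool.Agent.K9h12.AX
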